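import Mathlib
import Pool.Agent.Results.MP_540c93_co.NoFinite

set_option autoImplicit false

namespace Pool.Agent.Results.MP_88e7bb_co.Counter

open Finset Pool.Agent.Results.MP_540c93_co.NoFinite

/-- `G` is well-covered: all maximal independent (= independent dominating) sets have the same size. -/
def WellCovered {V : Type} (G : SimpleGraph V) : Prop :=
  ∀ S T, IsIndepDom G S → IsIndepDom G T → S.card = T.card

def X : Fin 7 → Finset (Fin 6) := ![{0, 2, 4}, {1, 2, 4}, {0, 3, 4}, {0, 2, 5}, {1, 3, 4}, {1, 2, 5}, {0, 3, 5}]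

/-- the cube `Q_3` minus a vertex -/
def H : SimpleGraph (Fin 7) where
  Adj a b := (X a \ X b).card = 1
  symm := ⟨by decide⟩
  loopless := ⟨by decide⟩

instance : DecidableRel H.Adj := fun a b => inferInstanceAs (Decidable ((X a \ X b).card = 1))

lemma extend {V : Type} [Fintype V] [DecidableEq V] (G : SimpleGraph V) (T : Finset V)
    (h : ∀ u ∈ T, ∀ v ∈ T, ¬ G.Adj u v) : ∃ S, T ⊆ S ∧ IsIndepDom G S := by
  classical
  obtain ⟨S, hS, hm⟩ := exists_max_image (univ.filter fun S : Finset V => T ⊆ S ∧ ∀ u ∈ S, ∀ v ∈ S, ¬ G.Adj u v)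
    card ⟨T, by simpa using h⟩
  obtain ⟨h1, h2⟩ := (mem_filter.1 hS).2
  refine ⟨S, h1, h2, fun v hv => by_contra fun hn => ?_⟩
  push Not at hn
  have := hm (insert v S) (mem_filter.2 ⟨mem_univ _, h1.trans (subset_insert _ _), fun a ha b hb e => ?_⟩)
  · rw [card_insert_of_notMem hv] at this; omega
  rcases mem_insert.1 ha with ha | ha <;> rcases mem_insert.1 hb with hb | hb
  exacts [e.ne (ha.trans hb.symm), hn _ hb (ha ▸ e), hn _ ha (hb ▸ e.symm), h2 _ ha _ hb e]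

theorem result : ∃ (W : Type) (_ : Fintype W) (H : SimpleGraph W), IsIGraph H ∧
    ∀ (V : Type) [Fintype V] [DecidableEq V] (G : SimpleGraph V), WellCovered G → IsEmpty (H ≃g iGraph G) := by
  refine ⟨Fin 7, inferInstance, H, realize H X 3 (by decide) (by decide) (by decide) fun _ _ => Iff.rfl,
    fun V _ _ G wc => ⟨fun e => ?_⟩⟩
  have sq : ∀ x y z w, H.Adj x y → H.Adj y z → H.Adj x w → ¬ (x = z ∨ H.Adj x z) → ¬ (y = w ∨ H.Adj y w) →
      ∀ a ∈ (e x).1, a ∉ (e y).1 → a ∈ (e w).1 ∧ a ∉ (e z).1 := fun x y z w h1 h2 h3 n1 n2 =>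
    square _ _ _ _ (e.map_adj_iff.2 h1) (e.map_adj_iff.2 h2) (e.map_adj_iff.2 h3)
      (by rwa [e.map_adj_iff, e.injective.eq_iff]) (by rwa [e.map_adj_iff, e.injective.eq_iff])
  have ad : ∀ x y, H.Adj x y → ((e x).1 \ (e y).1).card = 1 := fun x y h => (adj_iff _ _).1 (e.map_adj_iff.2 h)
  have one : ∀ x y, H.Adj x y → ∀ a b, a ∈ (e x).1 → a ∉ (e y).1 → b ∈ (e x).1 → b ∉ (e y).1 → a = b :=
    fun x y h a b a1 a2 a3 a4 => card_le_one.1 (ad x y h).le a (mem_sdiff.2 ⟨a1, a2⟩) b (mem_sdiff.2 ⟨a3, a4⟩)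
  obtain ⟨d, hd⟩ := card_pos.1 ((ad 0 3 (by decide)).symm ▸ one_pos)
  obtain ⟨c, hc⟩ := card_pos.1 ((ad 3 0 (by decide)).symm ▸ one_pos)
  rw [mem_sdiff] at hc hd
  obtain ⟨d1, d5⟩ := sq 0 3 5 1 (by decide) (by decide) (by decide) (by decide) (by decide) d hd.1 hd.2
  obtain ⟨d2, d6⟩ := sq 0 3 6 2 (by decide) (by decide) (by decide) (by decide) (by decide) d hd.1 hd.2
  obtain ⟨c5, c1⟩ := sq 3 0 1 5 (by decide) (by decide) (by decide) (by decide) (by decide) c hc.1 hc.2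
  obtain ⟨c6, c2⟩ := sq 3 0 2 6 (by decide) (by decide) (by decide) (by decide) (by decide) c hc.1 hc.2
  have s4 := sq 4 1 0 2 (by decide) (by decide) (by decide) (by decide) (by decide)
  have d4 : d ∈ (e 4).1 := by_contra fun h =>
    (sq 1 4 2 0 (by decide) (by decide) (by decide) (by decide) (by decide) d d1 h).2 d2
  have c4 : c ∉ (e 4).1 := fun h => c2 (s4 c h c1).1
  have k : ∀ x ∈ (e 4).1.erase d, ¬ G.Adj c x := fun x hx => by
    obtain ⟨x1, x2⟩ := mem_erase.1 hx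
    by_cases h : x ∈ (e 1).1
    · exact (e 5).2.1.1 c c5 x (by_contra fun h' => x1 (one 1 5 (by decide) x d h h' d1 d5))
    · exact (e 6).2.1.1 c c6 x (by_contra fun h' => x1 (one 2 6 (by decide) x d (s4 x x2 h).1 h' d2 d6))
  obtain ⟨S, hS, hI⟩ := extend G (insert c ((e 4).1.erase d)) fun a ha b hb h => by
    rcases mem_insert.1 ha with ha | ha <;> rcases mem_insert.1 hb with hb | hb
    exacts [h.ne (ha.trans hb.symm), k _ hb (ha ▸ h), k _ ha (hb ▸ h.symm),
      (e 4).2.1.1 _ (mem_of_mem_erase ha) _ (mem_of_mem_erase hb) h]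
  obtain ⟨w, hw⟩ := e.surjective ⟨S, hI, fun T hT => (wc _ _ hI hT).le⟩
  have hw : (e w).1 = S := congrArg Subtype.val hw
  have cw : c ∈ (e w).1 := hw ▸ hS (mem_insert_self _ _)
  have n4 := near (e 4) (e w) ((card_le_card (t := {d}) fun x hx => by
    rw [mem_sdiff, hw] at hx
    exact mem_singleton.2 (by_contra fun h => hx.2 (hS (mem_insert_of_mem (mem_erase.2 ⟨h, hx.1⟩))))).trans
      (card_singleton _).le)
  have n5 := near (e 5) (e w) ((card_le_card fun x hx => by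
    rw [mem_sdiff, hw] at hx
    refine mem_sdiff.2 ⟨by_contra fun h => hx.2 (hS ?_), fun h => hx.2 (hS (mem_insert_of_mem
      (mem_erase.2 ⟨fun e => d5 (e ▸ hx.1), h⟩)))⟩
    rw [one 5 1 (by decide) x c hx.1 h c5 c1]; exact mem_insert_self _ _).trans (ad 1 4 (by decide)).le)
  rw [e.map_adj_iff, e.injective.eq_iff] at n4 n5
  rcases (by decide : ∀ w, (4 = w ∨ H.Adj 4 w) → (5 = w ∨ H.Adj 5 w) → w = 1) w n4 n5 with rfl
  exact c1 cw

end Pool.Agent.Results.MP_88e7bb_co.Counter
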